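import Pool.Agent.Lib.MP_668cf7_lc.Defs

/-!
# `coNP(f)` and set disjointness

The other definitions of the result (`AMProtocol`, `IsZAM`, `ZAM`) are in `Defs.lean`.
-/

namespace MP668cf7

/-- `coNP(f) = ⌈log₂ N⌉`, where `N` is the least number of rectangles contained in `f⁻¹(0)`
whose union is `f⁻¹(0)`. -/
noncomputable def coNP {X Y : Type} (f : X → Y → Bool) : ℕ :=
  Nat.clog 2 (sInf {N : ℕ | ∃ (A : Fin N → Set X) (B : Fin N → Set Y),
    ∀ x y, f x y = false ↔ ∃ i, x ∈ A i ∧ y ∈ B i})

/-- Set disjointness `DISJ_n` on subsets of `[n]`: the value is `1` iff the sets are disjoint. -/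
def Sep.DISJ (n : ℕ) (x y : Finset (Fin n)) : Bool := decide (Disjoint x y)

end MP668cf7
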