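import Mathlib

/-!
# Zero-information Arthur-Merlin protocols: definitions

`AMProtocol X Y` is a private-coin AM protocol: finite nonempty coin sets `R`, `Q` and
rectangles `A i × B i` of `(X × R) × (Y × Q)` for `i = 0, ..., m - 1`.
`IsZAM f` says that the protocol is a ZAM protocol for `f`, and `ZAM f` is the least cost.
-/

namespace MP668cf7

/-- A private-coin Arthur-Merlin protocol: coin sets `R`, `Q` (finite, nonempty), and `m`
combinatorial rectangles `A i × B i ⊆ (X × R) × (Y × Q)`. -/
structure AMProtocol (X Y : Type) where
  /-- Alice's coins -/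
  R : Type
  /-- Bob's coins -/
  Q : Type
  finR : Finite R
  finQ : Finite Q
  nonR : Nonempty R
  nonQ : Nonempty Q
  /-- the number of rectangles -/
  m : ℕ
  /-- Alice's side of the `i`-th rectangle -/
  A : Fin m → Set (X × R)
  /-- Bob's side of the `i`-th rectangle -/
  B : Fin m → Set (Y × Q)

namespace AMProtocol

variable {X Y : Type} (P : AMProtocol X Y)

/-- The point `((x, r), (y, q))`, where `c = (r, q)`, lies in the `i`-th rectangle. -/
def InRect (x : X) (y : Y) (i : Fin P.m) (c : P.R × P.Q) : Prop :=
  (x, c.1) ∈ P.A i ∧ (y, c.2) ∈ P.B i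

/-- The protocol accepts the input `(x, y)` with the coins `c = (r, q)`. -/
def Accepts (x : X) (y : Y) (c : P.R × P.Q) : Prop := ∃ i, P.InRect x y i c

/-- The probability of an event over independent uniform coins `(r, q)`. -/
noncomputable def prob (E : P.R × P.Q → Prop) : ℝ :=
  (Nat.card {c : P.R × P.Q // E c} : ℝ) / (Nat.card (P.R × P.Q) : ℝ)

/-- The cost `⌈log₂ m⌉` of a protocol with `m` rectangles. -/
def cost : ℕ := Nat.clog 2 P.m

/-- `P` is a zero-information AM protocol for `f`. -/
structure IsZAM (f : X → Y → Bool) : Prop where
  /-- each 1-input is accepted with probability 1 -/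
  complete : ∀ x y, f x y = true → P.prob (P.Accepts x y) = 1
  /-- each 0-input is accepted with probability at most 1/2 -/
  sound : ∀ x y, f x y = false → P.prob (P.Accepts x y) ≤ 1 / 2
  /-- no point above a 1-input lies in two distinct rectangles -/
  unambiguous : ∀ x y, f x y = true → ∀ c i j, P.InRect x y i c → P.InRect x y j c → i = j
  /-- the distribution of the index of the accepting rectangle is the same for all 1-inputs -/
  zeroInfo : ∀ x y x' y', f x y = true → f x' y' = true → ∀ i,
    P.prob (P.InRect x y i) = P.prob (P.InRect x' y' i)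

end AMProtocol

/-- The zero-information AM complexity of `f`: the least cost of a ZAM protocol for `f`. -/
noncomputable def ZAM {X Y : Type} (f : X → Y → Bool) : ℕ :=
  sInf {k : ℕ | ∃ P : AMProtocol X Y, P.IsZAM f ∧ P.cost = k}

end MP668cf7
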