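import Pool.Agent.Lib.MP_668cf7_lc.Proto

/-!
# ZAM protocols from a pair of matrices over `F₂` and `F₃`

Let `⟨u x, v i⟩` (over `F₂`) and `⟨u' x, v' i⟩` (over `F₃`) be matrices indexed by `X` with all
diagonal entries `1` such that every off-diagonal entry vanishes in at least one of them.
Then every `f : X → Y → Bool` has a ZAM protocol with `(2^r 3^s)^2` rectangles.
-/

namespace MP668cf7

open Finset

section

variable {X Y I J : Type} [Fintype X] [Fintype I] [Fintype J]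

/-- Alice's twist. -/
def lam (z : ZMod 3) : ZMod 2 := if z = 0 then 1 else 0

/-- Bob's one-time pad. -/
noncomputable def phi (f : X → Y → Bool) (v : X → I → ZMod 2) (v' : X → J → ZMod 3)
    (y : Y) (W : I → ZMod 2) : J → ZMod 3 := by
  classical
  exact ∑ i : X, if (f i y = false ∧ W ⬝ᵥ v i = 1) then v' i else 0

theorem dot_phi (f : X → Y → Bool) (v : X → I → ZMod 2) (v' : X → J → ZMod 3)
    (y : Y) (W : I → ZMod 2) (w : J → ZMod 3) :
    w ⬝ᵥ phi f v v' y W = ∑ i : X, if (f i y = false ∧ W ⬝ᵥ v i = 1) then w ⬝ᵥ v' i else 0 := by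
  classical
  unfold phi
  rw [dotProduct_sum]
  refine Finset.sum_congr rfl fun i _ => ?_
  by_cases h : f i y = false ∧ W ⬝ᵥ v i = 1
  · simp only [if_pos h]
  · simp only [if_neg h, dotProduct_zero]

theorem dot_phi_shift (f : X → Y → Bool) (u v : X → I → ZMod 2) (u' v' : X → J → ZMod 3)
    (hne : ∀ x i, x ≠ i → u x ⬝ᵥ v i = 0 ∨ u' x ⬝ᵥ v' i = 0)
    (x : X) (y : Y) (W : I → ZMod 2) (t : ZMod 2) :
    ∃ c : ZMod 3, u' x ⬝ᵥ phi f v v' y W
        = c + (if (f x y = false ∧ W ⬝ᵥ v x = 1) then u' x ⬝ᵥ v' x else 0) ∧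
      u' x ⬝ᵥ phi f v v' y (W + t • u x)
        = c + (if (f x y = false ∧ (W + t • u x) ⬝ᵥ v x = 1) then u' x ⬝ᵥ v' x else 0) := by
  classical
  refine ⟨∑ i ∈ univ.erase x, if (f i y = false ∧ W ⬝ᵥ v i = 1) then u' x ⬝ᵥ v' i else 0, ?_, ?_⟩
  · rw [dot_phi, Finset.sum_erase_add _ _ (Finset.mem_univ x)]
  · rw [dot_phi, ← Finset.sum_erase_add _ _ (Finset.mem_univ x)]
    congr 1
    refine Finset.sum_congr rfl fun i hi => ?_
    rcases hne x i (Finset.ne_of_mem_erase hi).symm with h | h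
    · rw [add_dotProduct, smul_dotProduct, h, smul_zero, add_zero]
    · simp [h]

theorem lam_aux : ∀ (z c : ZMod 3) (w : ZMod 2),
    ¬ (z + (c + if w = 1 then 1 else 0) = c + if w + lam z • 1 = 1 then 1 else 0) := by
  unfold lam
  decide

/-- Rejected coins: a third of all coins. -/
theorem card_aux (M : Type) [Fintype M] [DecidableEq M] (S : Finset M) (g : M → M) (h : M → ZMod 3)
    (hg : ∀ c, g c ∈ S) (hgi : ∀ c c', g c = g c' → h c = h c' → c = c') :
    Fintype.card M ≤ 3 * S.card := by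
  have : Fintype.card M ≤ Fintype.card (S × ZMod 3) := by
    apply Fintype.card_le_of_injective (fun c : M => ((⟨g c, hg c⟩ : S), h c))
    intro c c' hc
    exact hgi c c' (congrArg (fun z => z.1.1) hc) (congrArg (fun z => z.2) hc)
  rw [Fintype.card_prod, ZMod.card, Fintype.card_coe] at this
  omega

theorem card_aux2 (M : Type) [Fintype M] [DecidableEq M] (S : Finset M) (g : M → M)
    (hg : ∀ c, g c ∉ S) (hS : Fintype.card M ≤ 3 * S.card) :
    3 * Nat.card (Set.range g) ≤ 2 * Nat.card M := by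
  have hrange : Nat.card (Set.range g) ≤ (Sᶜ).card := by
    rw [← Fintype.card_coe, ← Nat.card_eq_fintype_card]
    have hz : ∀ z : Set.range g, z.1 ∈ Sᶜ := by
      rintro ⟨_, c, rfl⟩
      rw [Finset.mem_compl]
      exact hg c
    refine Nat.card_le_card_of_injective (fun z => (⟨z.1, hz z⟩ : (Sᶜ : Finset M))) ?_
    intro z z' h
    exact Subtype.ext (congrArg (fun w => w.1) h)
  have hc2 : (Sᶜ).card + S.card = Fintype.card M := by
    rw [add_comm]; exact Finset.card_add_card_compl S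
  rw [Nat.card_eq_fintype_card (α := M)]
  omega

theorem of_matrices (f : X → Y → Bool)
    (u v : X → I → ZMod 2) (u' v' : X → J → ZMod 3)
    (huv : ∀ x, u x ⬝ᵥ v x = 1) (huv' : ∀ x, u' x ⬝ᵥ v' x = 1)
    (hne : ∀ x i, x ≠ i → u x ⬝ᵥ v i = 0 ∨ u' x ⬝ᵥ v' i = 0) :
    ∃ P : AMProtocol X Y, P.IsZAM f ∧
      P.m = (2 ^ Fintype.card I * 3 ^ Fintype.card J) * (2 ^ Fintype.card I * 3 ^ Fintype.card J) := by
  classical
  have key1 : ∀ x y, f x y = true → Function.Bijective (fun c : (I → ZMod 2) × (J → ZMod 3) =>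
      ((c.1 + lam (u' x ⬝ᵥ c.2) • u x, c.2 + phi f v v' y c.1) :
        (I → ZMod 2) × (J → ZMod 3))) := by
    intro x y hxy
    rw [← Finite.injective_iff_bijective]
    rintro ⟨W, Z⟩ ⟨W', Z'⟩ h
    simp only [Prod.mk.injEq] at h
    obtain ⟨h1, h2⟩ := h
    have hW : W' = W + (lam (u' x ⬝ᵥ Z) - lam (u' x ⬝ᵥ Z')) • u x := by
      rw [sub_smul, ← add_sub_assoc, h1]
      abel
    obtain ⟨c, e1, e2⟩ := dot_phi_shift f u v u' v' hne x y W
      (lam (u' x ⬝ᵥ Z) - lam (u' x ⬝ᵥ Z'))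
    rw [← hW] at e2
    simp only [hxy, Bool.true_eq_false, false_and, if_false, add_zero] at e1 e2
    have h3 : u' x ⬝ᵥ Z = u' x ⬝ᵥ Z' := by
      have := congrArg (fun z => u' x ⬝ᵥ z) h2
      simp only [dotProduct_add, e1, e2] at this
      exact add_right_cancel this
    have h4 : W = W' := by
      rw [h3] at h1
      exact add_right_cancel h1
    subst h4
    exact Prod.ext rfl (add_right_cancel h2)
  have key0 : ∀ x y, f x y = false → 3 * Nat.card (Set.range
      (fun c : (I → ZMod 2) × (J → ZMod 3) =>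
      ((c.1 + lam (u' x ⬝ᵥ c.2) • u x, c.2 + phi f v v' y c.1) :
        (I → ZMod 2) × (J → ZMod 3)))) ≤ 2 * Nat.card ((I → ZMod 2) × (J → ZMod 3)) := by
    intro x y hxy
    let S : Finset ((I → ZMod 2) × (J → ZMod 3)) :=
      univ.filter fun c => u' x ⬝ᵥ c.2 = u' x ⬝ᵥ phi f v v' y c.1
    apply card_aux2 _ S
    · rintro ⟨W, Z⟩ hc
      simp only [S, Finset.mem_filter, Finset.mem_univ, true_and, dotProduct_add] at hc
      obtain ⟨c, e1, e2⟩ := dot_phi_shift f u v u' v' hne x y W (lam (u' x ⬝ᵥ Z))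
      rw [e1, e2, huv' x] at hc
      simp only [hxy, true_and, add_dotProduct, smul_dotProduct, huv x] at hc
      exact lam_aux _ _ _ hc
    · apply card_aux _ S
        (fun c => (c.1, c.2 - (u' x ⬝ᵥ c.2 - u' x ⬝ᵥ phi f v v' y c.1) • v' x))
        (fun c => u' x ⬝ᵥ c.2 - u' x ⬝ᵥ phi f v v' y c.1)
      · intro c
        simp [S, dotProduct_sub, huv' x]
      · rintro ⟨W, Z⟩ ⟨W', Z'⟩ h1 h2
        simp only [Prod.mk.injEq] at h1 h2
        rw [h2] at h1
        exact Prod.ext h1.1 (sub_left_injective h1.2)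
  obtain ⟨P, hP, hm⟩ := of_maps_sq (M := (I → ZMod 2) × (J → ZMod 3)) (R := I → ZMod 2)
    (Q := J → ZMod 3) f (fun x c => c.1 + lam (u' x ⬝ᵥ c.2) • u x)
    (fun y c => c.2 + phi f v v' y c.1) key1 key0
  refine ⟨P, hP, ?_⟩
  rw [hm, Fintype.card_prod, Fintype.card_fun, Fintype.card_fun, ZMod.card, ZMod.card]

end

end MP668cf7
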