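import Mathlib

/-!
# Set systems with restricted intersections modulo prime powers

For a prime `p` and subsets `G x` of a finite set `E`, the 0/1-matrix
`[#(G x ∩ G x') ≡ k (mod p ^ a)]` over `F_p` factors through dimension at most
`(|E| + 1) ^ (p ^ a)`.
-/

namespace MP668cf7

open Finset

theorem fwdDiff_periodic (p : ℕ) [hp : Fact p.Prime] (a : ℕ) (g : ℕ → ZMod p)
    (hg : ∀ s, g (s + p ^ a) = g s) (y : ℕ) : (fwdDiff 1)^[p ^ a] g y = 0 := by
  rw [fwdDiff_iter_eq_sum_shift]
  have hpos : 0 < p ^ a := pow_pos hp.out.pos a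
  rw [Finset.sum_range_succ]
  obtain ⟨D, hD⟩ : ∃ D, p ^ a = D + 1 := ⟨p ^ a - 1, by omega⟩
  have hmid : ∀ k ∈ range (p ^ a), k ≠ 0 →
      ((-1 : ℤ) ^ (p ^ a - k) * (p ^ a).choose k) • g (y + k • 1) = 0 := by
    intro k hk hk0
    have hk' : k ≠ p ^ a := (Finset.mem_range.1 hk).ne
    have hdvd : p ∣ (p ^ a).choose k := Nat.Prime.dvd_choose_pow hp.out hk0 hk'
    rw [zsmul_eq_mul]
    push_cast
    rw [(ZMod.natCast_eq_zero_iff _ _).2 hdvd]
    ring
  rw [Finset.sum_eq_single_of_mem 0 (Finset.mem_range.2 hpos) hmid]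
  simp only [smul_eq_mul, mul_one, Nat.sub_zero, Nat.choose_zero_right, Nat.cast_one,
    add_zero, Nat.sub_self, pow_zero, Nat.choose_self, one_smul, hg, zsmul_eq_mul]
  push_cast
  rw [ZMod.pow_card_pow]
  ring

theorem fwdDiff_periodic_ge (p : ℕ) [hp : Fact p.Prime] (a : ℕ) (g : ℕ → ZMod p)
    (hg : ∀ s, g (s + p ^ a) = g s) (d : ℕ) (hd : p ^ a ≤ d) (y : ℕ) : (fwdDiff 1)^[d] g y = 0 := by
  obtain ⟨c, rfl⟩ := Nat.exists_eq_add_of_le' hd
  rw [Function.iterate_add_apply]
  have : ((fwdDiff 1)^[p ^ a] g) = fun _ => 0 := by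
    funext y
    exact fwdDiff_periodic p a g hg y
  rw [this]
  clear this
  induction c generalizing y with
  | zero => rfl
  | succ c ih => rw [Function.iterate_succ_apply']; simp [fwdDiff, ih]

theorem periodic_newton (p : ℕ) [hp : Fact p.Prime] (a : ℕ) (g : ℕ → ZMod p)
    (hg : ∀ s, g (s + p ^ a) = g s) (s : ℕ) :
    g s = ∑ d ∈ range (p ^ a), (s.choose d : ZMod p) * ((fwdDiff 1)^[d] g 0) := by
  have h := shift_eq_sum_fwdDiff_iter 1 g s 0
  simp only [smul_eq_mul, mul_one, zero_add, nsmul_eq_mul] at h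
  rw [h]
  have h1 : ∑ k ∈ range (s + 1), (s.choose k : ZMod p) * (fwdDiff 1)^[k] g 0
      = ∑ k ∈ range (s + 1 + p ^ a), (s.choose k : ZMod p) * (fwdDiff 1)^[k] g 0 := by
    apply Finset.sum_subset
    · exact Finset.range_mono (by omega)
    · intro k _ hk
      rw [Finset.mem_range, not_lt] at hk
      rw [Nat.choose_eq_zero_of_lt (by omega)]
      simp
  have h2 : ∑ k ∈ range (p ^ a), (s.choose k : ZMod p) * (fwdDiff 1)^[k] g 0
      = ∑ k ∈ range (s + 1 + p ^ a), (s.choose k : ZMod p) * (fwdDiff 1)^[k] g 0 := by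
    apply Finset.sum_subset
    · exact Finset.range_mono (by omega)
    · intro k _ hk
      rw [Finset.mem_range, not_lt] at hk
      rw [fwdDiff_periodic_ge p a g hg k hk]
      simp
  rw [h1, h2]

theorem card_small_subsets (E : Type) [Fintype E] [DecidableEq E] (D : ℕ)
    (hE : 0 < Fintype.card E) :
    Fintype.card {J : Finset E // J.card < D} ≤ (Fintype.card E + 1) ^ D := by
  induction D with
  | zero => simp
  | succ D ih =>
    have h1 : Fintype.card {J : Finset E // J.card < D + 1}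
        ≤ Fintype.card ({J : Finset E // J.card < D} ⊕ {J : Finset E // J.card = D}) := by
      apply Fintype.card_le_of_injective
        (fun J => if h : J.1.card < D then Sum.inl ⟨J.1, h⟩
          else Sum.inr ⟨J.1, by have := J.2; omega⟩)
      intro J J' h
      apply Subtype.ext
      by_cases h1 : J.1.card < D <;> by_cases h2 : J'.1.card < D <;> simp [h1, h2] at h
      · exact h
      · exact h
    rw [Fintype.card_sum] at h1
    have h2 : Fintype.card {J : Finset E // J.card = D} = (Fintype.card E).choose D := by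
      rw [Fintype.card_finset_len]
    have h3 : (Fintype.card E).choose D ≤ (Fintype.card E) ^ D := Nat.choose_le_pow _ _
    have h4 : (Fintype.card E) ^ D ≤ (Fintype.card E + 1) ^ D := Nat.pow_le_pow_left (by omega) _
    have h5 : (Fintype.card E + 1) ^ (D + 1)
      = (Fintype.card E + 1) ^ D * Fintype.card E + (Fintype.card E + 1) ^ D := by ring
    have h6 : (Fintype.card E + 1) ^ D ≤ (Fintype.card E + 1) ^ D * Fintype.card E :=
      Nat.le_mul_of_pos_right _ hE
    omega

theorem matching (p : ℕ) [hp : Fact p.Prime] (a k : ℕ) {X E : Type} [Fintype E] [DecidableEq E]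
    (G : X → Finset E) (hE : 0 < Fintype.card E) :
    ∃ (I : Type) (_ : Fintype I) (u v : X → I → ZMod p),
      Fintype.card I ≤ (Fintype.card E + 1) ^ (p ^ a) ∧
      ∀ x x', u x ⬝ᵥ v x' = if (G x ∩ G x').card ≡ k [MOD p ^ a] then 1 else 0 := by
  classical
  let g : ℕ → ZMod p := fun s => if s ≡ k [MOD p ^ a] then 1 else 0
  have hg : ∀ s, g (s + p ^ a) = g s := by
    intro s
    have : (s + p ^ a ≡ k [MOD p ^ a]) ↔ (s ≡ k [MOD p ^ a]) := by
      unfold Nat.ModEq
      rw [Nat.add_mod_right]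
    simp only [g, this]
  refine ⟨{J : Finset E // J.card < p ^ a}, inferInstance,
    fun x J => if J.1 ⊆ G x then (fwdDiff 1)^[J.1.card] g 0 else 0,
    fun x J => if J.1 ⊆ G x then 1 else 0, card_small_subsets E _ hE, ?_⟩
  intro x x'
  show _ = g (G x ∩ G x').card
  rw [periodic_newton p a g hg]
  simp only [dotProduct]
  have h1 : ∀ J : {J : Finset E // J.card < p ^ a},
      ((if J.1 ⊆ G x then (fwdDiff 1)^[J.1.card] g 0 else 0) * (if J.1 ⊆ G x' then (1 : ZMod p) else 0))
      = if J.1 ⊆ G x ∩ G x' then (fwdDiff 1)^[J.1.card] g 0 else 0 := by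
    intro J
    by_cases h : J.1 ⊆ G x <;> by_cases h' : J.1 ⊆ G x' <;> simp [h, h', Finset.subset_inter_iff]
  rw [Finset.sum_congr rfl (fun J _ => h1 J)]
  have h2 : ∑ J : {J : Finset E // J.card < p ^ a},
      (if J.1 ⊆ G x ∩ G x' then (fwdDiff 1)^[J.1.card] g 0 else 0)
      = ∑ J ∈ (univ : Finset (Finset E)).filter (fun J => J.card < p ^ a),
        (if J ⊆ G x ∩ G x' then (fwdDiff 1)^[J.card] g 0 else 0) := by
    rw [Finset.sum_subtype (p := fun J : Finset E => J.card < p ^ a)
      ((univ : Finset (Finset E)).filter (fun J => J.card < p ^ a))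
      (fun J => by simp) (fun J => if J ⊆ G x ∩ G x' then (fwdDiff 1)^[J.card] g 0 else 0)]
  rw [h2, ← Finset.sum_filter, Finset.filter_filter]
  have h3 : ((univ : Finset (Finset E)).filter
      (fun J => J.card < p ^ a ∧ J ⊆ G x ∩ G x'))
      = (range (p ^ a)).biUnion (fun d => (G x ∩ G x').powersetCard d) := by
    ext J
    simp only [Finset.mem_filter, Finset.mem_univ, true_and, Finset.mem_biUnion, Finset.mem_range,
      Finset.mem_powersetCard]
    constructor
    · rintro ⟨h, h'⟩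
      exact ⟨J.card, h, h', rfl⟩
    · rintro ⟨d, hd, h', rfl⟩
      exact ⟨hd, h'⟩
  rw [h3, Finset.sum_biUnion]
  · refine Finset.sum_congr rfl fun d _ => ?_
    rw [Finset.sum_congr rfl (g := fun _ => (fwdDiff 1)^[d] g 0)
      (fun J hJ => by rw [(Finset.mem_powersetCard.1 hJ).2]), Finset.sum_const,
      Finset.card_powersetCard, nsmul_eq_mul]
  · intro d _ d' _ hdd
    rw [Function.onFun, Finset.disjoint_left]
    intro J hJ hJ'
    exact hdd ((Finset.mem_powersetCard.1 hJ).2.symm.trans (Finset.mem_powersetCard.1 hJ').2)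

end MP668cf7
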