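import Pool.Agent.Lib.MP_668cf7_lc.Defs

/-! # Exchanging the two parties -/

namespace MP668cf7

variable {X Y : Type}

/-- Exchange the roles of Alice and Bob. -/
def AMProtocol.swap (P : AMProtocol X Y) : AMProtocol Y X where
  R := P.Q
  Q := P.R
  finR := P.finQ
  finQ := P.finR
  nonR := P.nonQ
  nonQ := P.nonR
  m := P.m
  A := P.B
  B := P.A

theorem AMProtocol.swap_inRect (P : AMProtocol X Y) (x : X) (y : Y) (i : Fin P.m)
    (c : P.R × P.Q) : P.swap.InRect y x i c.swap ↔ P.InRect x y i c := by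
  unfold AMProtocol.InRect
  exact And.comm

theorem AMProtocol.swap_accepts (P : AMProtocol X Y) (x : X) (y : Y)
    (c : P.R × P.Q) : P.swap.Accepts y x c.swap ↔ P.Accepts x y c :=
  exists_congr fun i => P.swap_inRect x y i c

theorem AMProtocol.swap_prob (P : AMProtocol X Y) (E : P.R × P.Q → Prop)
    (E' : P.swap.R × P.swap.Q → Prop) (h : ∀ c, E' (Prod.swap c) ↔ E c) :
    P.swap.prob E' = P.prob E := by
  unfold AMProtocol.prob
  have h1 : Nat.card {c : P.swap.R × P.swap.Q // E' c} = Nat.card {c : P.R × P.Q // E c} :=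
    (Nat.card_congr ((Equiv.prodComm P.R P.Q).subtypeEquiv (fun c => (h c).symm))).symm
  have h2 : Nat.card (P.swap.R × P.swap.Q) = Nat.card (P.R × P.Q) :=
    (Nat.card_congr (Equiv.prodComm P.R P.Q)).symm
  rw [h1, h2]

theorem AMProtocol.swap_isZAM (P : AMProtocol X Y) (f : Y → X → Bool)
    (hP : P.IsZAM (fun x y => f y x)) : P.swap.IsZAM f := by
  refine ⟨?_, ?_, ?_, ?_⟩
  · intro y x h
    rw [P.swap_prob (P.Accepts x y) _ (fun c => P.swap_accepts x y c)]
    exact hP.complete x y h
  · intro y x h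
    rw [P.swap_prob (P.Accepts x y) _ (fun c => P.swap_accepts x y c)]
    exact hP.sound x y h
  · intro y x h c i j hi hj
    exact hP.unambiguous x y h c.swap i j ((P.swap_inRect x y i c.swap).1 hi)
      ((P.swap_inRect x y j c.swap).1 hj)
  · intro y x y' x' h h' i
    rw [P.swap_prob (P.InRect x y i) _ (fun c => P.swap_inRect x y i c),
      P.swap_prob (P.InRect x' y' i) _ (fun c => P.swap_inRect x' y' i c)]
    exact hP.zeroInfo x y x' y' h h' i

end MP668cf7
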