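import Pool.Agent.Lib.MP_668cf7_lc.Linear
import Pool.Agent.Lib.MP_668cf7_lc.Matching
import Pool.Agent.Lib.MP_668cf7_lc.Swap

/-!
# Every two-party function on `n`-bit inputs has ZAM complexity at most `2 ^ (39 √(n log n))`
-/

namespace MP668cf7

open Finset

/-- ZAM protocols from a family of `k`-subsets of a finite set, `k < 2 ^ a * 3 ^ b`. -/
theorem zam_of_family {X Y E : Type} [Fintype X] [Fintype E] [DecidableEq E]
    (hE : 0 < Fintype.card E) (G : X → Finset E) (k : ℕ) (hk : ∀ x, (G x).card = k)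
    (hG : Function.Injective G) (a b : ℕ) (hab : k < 2 ^ a * 3 ^ b) (f : X → Y → Bool) :
    ∃ P : AMProtocol X Y, P.IsZAM f ∧
      P.cost ≤ 2 * (Fintype.card E + 1) ^ (2 ^ a) + 4 * (Fintype.card E + 1) ^ (3 ^ b) := by
  classical
  have : Fact (Nat.Prime 2) := ⟨Nat.prime_two⟩
  have : Fact (Nat.Prime 3) := ⟨Nat.prime_three⟩
  obtain ⟨I, _, u, v, hI, huv⟩ := matching 2 a k G hE
  obtain ⟨J, _, u', v', hJ, huv'⟩ := matching 3 b k G hE
  obtain ⟨P, hP, hm⟩ := of_matrices f u v u' v'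
    (fun x => by rw [huv, Finset.inter_self, hk]; exact if_pos rfl)
    (fun x => by rw [huv', Finset.inter_self, hk]; exact if_pos rfl)
    (fun x i hxi => by
      rw [huv, huv']
      by_contra hcon
      rw [not_or] at hcon
      have h2 : (G x ∩ G i).card ≡ k [MOD 2 ^ a] := by
        by_contra h
        exact hcon.1 (if_neg h)
      have h3 : (G x ∩ G i).card ≡ k [MOD 3 ^ b] := by
        by_contra h
        exact hcon.2 (if_neg h)
      have hcop : Nat.Coprime (2 ^ a) (3 ^ b) := by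
        apply Nat.Coprime.pow
        decide
      have h6 : (G x ∩ G i).card ≡ k [MOD 2 ^ a * 3 ^ b] :=
        (Nat.modEq_and_modEq_iff_modEq_mul hcop).1 ⟨h2, h3⟩
      have hle : (G x ∩ G i).card ≤ k := by
        rw [← hk x]
        exact Finset.card_le_card Finset.inter_subset_left
      have heq : (G x ∩ G i).card = k := Nat.ModEq.eq_of_lt_of_lt h6 (lt_of_le_of_lt hle hab) hab
      apply hxi
      apply hG
      have e1 : G x ∩ G i = G x :=
        Finset.eq_of_subset_of_card_le Finset.inter_subset_left (by rw [heq, hk])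
      have e2 : G x ∩ G i = G i :=
        Finset.eq_of_subset_of_card_le Finset.inter_subset_right (by rw [heq, hk])
      rw [← e1, e2])
  refine ⟨P, hP, ?_⟩
  unfold AMProtocol.cost
  apply Nat.clog_le_of_le_pow
  rw [hm]
  have h34 : 3 ^ Fintype.card J ≤ 2 ^ (2 * Fintype.card J) := by
    rw [pow_mul]
    exact Nat.pow_le_pow_left (by norm_num) _
  calc (2 ^ Fintype.card I * 3 ^ Fintype.card J) * (2 ^ Fintype.card I * 3 ^ Fintype.card J)
      ≤ (2 ^ Fintype.card I * 2 ^ (2 * Fintype.card J))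
        * (2 ^ Fintype.card I * 2 ^ (2 * Fintype.card J)) := by gcongr
    _ = 2 ^ (2 * Fintype.card I + 4 * Fintype.card J) := by
        rw [← pow_add, ← pow_add]; congr 1; ring
    _ ≤ _ := by
        apply Nat.pow_le_pow_right (by norm_num)
        omega

/-- The combinatorial form of the bound. -/
theorem zam_nat {X Y : Type} [Finite X] (n : ℕ) (hn : 2 ≤ n) (hX : Nat.card X ≤ 2 ^ n)
    (f : X → Y → Bool) : ∃ P : AMProtocol X Y, P.IsZAM f ∧
      P.cost ≤ 6 * n ^ (9 * (Nat.sqrt (n / Nat.log 2 n + 1) + 1)) := by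
  classical
  have := Fintype.ofFinite X
  set L := Nat.log 2 n with hL
  have hL1 : 1 ≤ L := by
    rw [hL]
    exact Nat.log_pos (by norm_num) hn
  set k := n / L + 1 with hk
  have hkL : n ≤ L * k := (Nat.lt_mul_div_succ n (show 0 < L by omega)).le
  have hσ : 2 ^ L ≤ n := Nat.pow_log_le_self 2 (by omega)
  have hcard : Fintype.card X ≤ Fintype.card (Fin k → Fin (2 ^ L)) := by
    rw [Fintype.card_fun, Fintype.card_fin, Fintype.card_fin, ← pow_mul]
    rw [Nat.card_eq_fintype_card] at hX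
    exact hX.trans (Nat.pow_le_pow_right (by norm_num) hkL)
  obtain ⟨w⟩ := Function.Embedding.nonempty_of_card_le hcard
  have hE : Fintype.card (Fin k × Fin (2 ^ L)) = k * 2 ^ L := by
    rw [Fintype.card_prod, Fintype.card_fin, Fintype.card_fin]
  set t := Nat.sqrt k with ht
  have ht1 : 1 ≤ t := by
    rw [ht, Nat.le_sqrt]
    exact Nat.succ_le_succ (Nat.zero_le _)
  have htk : k < (t + 1) * (t + 1) := Nat.lt_succ_sqrt k
  set a := Nat.clog 2 (t + 1) with ha
  set b := Nat.clog 3 (t + 1) with hb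
  have ha1 : t + 1 ≤ 2 ^ a := Nat.le_pow_clog (by norm_num) _
  have hb1 : t + 1 ≤ 3 ^ b := Nat.le_pow_clog (by norm_num) _
  have ha0 : 0 < a := Nat.clog_pos (by norm_num) (by omega)
  have hb0 : 0 < b := Nat.clog_pos (by norm_num) (by omega)
  have ha2 : 2 ^ a ≤ 3 * (t + 1) := by
    have h := Nat.pow_pred_clog_lt_self (b := 2) (by norm_num) (x := t + 1) (by omega)
    rw [← ha] at h
    have : 2 ^ a = 2 * 2 ^ a.pred := by
      rw [← pow_succ', ← Nat.succ_eq_add_one, Nat.succ_pred_eq_of_pos ha0]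
    omega
  have hb2 : 3 ^ b ≤ 3 * (t + 1) := by
    have h := Nat.pow_pred_clog_lt_self (b := 3) (by norm_num) (x := t + 1) (by omega)
    rw [← hb] at h
    have : 3 ^ b = 3 * 3 ^ b.pred := by
      rw [← pow_succ', ← Nat.succ_eq_add_one, Nat.succ_pred_eq_of_pos hb0]
    omega
  obtain ⟨P, hP, hc⟩ := zam_of_family (E := Fin k × Fin (2 ^ L))
    (by rw [hE]; positivity)
    (fun x => (univ : Finset (Fin k)).map ⟨fun i => (i, w x i), fun i j h => (Prod.mk.inj h).1⟩)
    k (fun x => by rw [Finset.card_map, Finset.card_univ, Fintype.card_fin])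
    (by
      intro x x' h
      apply w.injective
      funext i
      have : (i, w x i) ∈ (univ : Finset (Fin k)).map
          ⟨fun i => (i, w x' i), fun i j h => (Prod.mk.inj h).1⟩ := by
        simp only at h
        rw [← h]
        simp
      simp only [Finset.mem_map, Finset.mem_univ, true_and, Function.Embedding.coeFn_mk,
        Prod.mk.injEq] at this
      obtain ⟨j, rfl, hj⟩ := this
      exact hj.symm)
    a b (lt_of_lt_of_le htk (Nat.mul_le_mul ha1 hb1)) f
  refine ⟨P, hP, hc.trans ?_⟩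
  rw [hE]
  have hk2 : k ≤ n + 1 := by
    have := Nat.div_le_self n L
    omega
  have hbase : k * 2 ^ L + 1 ≤ n ^ 3 := by
    have h1 : k * 2 ^ L ≤ (n + 1) * n := Nat.mul_le_mul hk2 hσ
    nlinarith [hn, Nat.zero_le n, sq_nonneg (n : ℤ), mul_le_mul hn hn (by norm_num) (Nat.zero_le n)]
  have key : ∀ c, c ≤ 3 * (t + 1) → (k * 2 ^ L + 1) ^ c ≤ n ^ (9 * (t + 1)) := by
    intro c hc
    calc (k * 2 ^ L + 1) ^ c ≤ (n ^ 3) ^ c := Nat.pow_le_pow_left hbase _
      _ = n ^ (3 * c) := by rw [← pow_mul]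
      _ ≤ _ := Nat.pow_le_pow_right (by omega) (by omega)
  have h2 := key _ ha2
  have h3 := key _ hb2
  omega

/-- The real-number estimate. -/
theorem estimate (n : ℕ) (hn : 2 ≤ n) :
    ((6 * n ^ (9 * (Nat.sqrt (n / Nat.log 2 n + 1) + 1)) : ℕ) : ℝ)
      ≤ 2 ^ (39 * Real.sqrt (n * Real.logb 2 n)) := by
  set L := Nat.log 2 n with hL
  have hL1 : 1 ≤ L := by
    rw [hL]
    exact Nat.log_pos (by norm_num) hn
  set t := Nat.sqrt (n / L + 1) with ht
  have hn' : (2 : ℝ) ≤ n := by exact_mod_cast hn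
  set l := Real.logb 2 n with hl
  have hl1 : 1 ≤ l := by
    rw [hl, Real.le_logb_iff_rpow_le (by norm_num) (by linarith)]
    simpa using hn'
  have hlL : l ≤ 2 * L := by
    have h1 : n < 2 ^ (L + 1) := Nat.lt_pow_succ_log_self (by norm_num) n
    have h2 : l ≤ L + 1 := by
      rw [hl, Real.logb_le_iff_le_rpow (by norm_num) (by linarith)]
      have : ((L : ℝ) + 1) = ((L + 1 : ℕ) : ℝ) := by push_cast; ring
      rw [this, Real.rpow_natCast]
      exact_mod_cast h1.le
    have h3 : (1 : ℝ) ≤ L := by exact_mod_cast hL1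
    linarith
  have ht1 : 1 ≤ t := by
    rw [ht, Nat.le_sqrt]
    exact Nat.succ_le_succ (Nat.zero_le _)
  have hLn : L ≤ n := Nat.log_le_self 2 n
  have hkey : (t : ℝ) ^ 2 * l ≤ 4 * n := by
    have h1 : t * t ≤ n / L + 1 := Nat.sqrt_le _
    have h2 : (n / L + 1) * L ≤ 2 * n := by
      have := Nat.div_mul_le_self n L
      nlinarith
    have h3 : t * t * L ≤ 2 * n := (Nat.mul_le_mul_right L h1).trans h2
    have h4 : (t : ℝ) * t * L ≤ 2 * n := by exact_mod_cast h3
    have h5 : (0 : ℝ) ≤ (t : ℝ) * t := by positivity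
    nlinarith
  have hs : (t : ℝ) * l ≤ 2 * Real.sqrt (n * l) := by
    have h1 : ((t : ℝ) * l) ^ 2 ≤ 4 * (n * l) := by nlinarith
    have h2 : (t : ℝ) * l ≤ Real.sqrt (4 * (n * l)) := Real.le_sqrt_of_sq_le h1
    have h3 : Real.sqrt (4 * (n * l)) = 2 * Real.sqrt (n * l) := by
      rw [Real.sqrt_mul (by norm_num)]
      congr 1
      rw [show (4 : ℝ) = 2 ^ 2 by norm_num]
      exact Real.sqrt_sq (by norm_num)
    linarith
  have hs1 : 1 ≤ Real.sqrt (n * l) := by
    rw [Real.one_le_sqrt]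
    nlinarith
  have hn2 : (n : ℝ) = 2 ^ l := by
    rw [hl, Real.rpow_logb (by norm_num) (by norm_num) (by linarith)]
  push_cast
  have hpow : (n : ℝ) ^ (9 * (t + 1)) = 2 ^ (l * (9 * (t + 1) : ℕ)) := by
    rw [Real.rpow_mul (by norm_num), ← hn2, Real.rpow_natCast]
  have h6 : (6 : ℝ) ≤ 2 ^ (3 * Real.sqrt (n * l)) := by
    calc (6 : ℝ) ≤ 2 ^ (3 : ℝ) := by norm_num
      _ ≤ _ := Real.rpow_le_rpow_of_exponent_le (by norm_num) (by linarith)
  have h7 : (n : ℝ) ^ (9 * (t + 1)) ≤ 2 ^ (36 * Real.sqrt (n * l)) := by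
    rw [hpow]
    apply Real.rpow_le_rpow_of_exponent_le (by norm_num)
    push_cast
    have h8 : (1 : ℝ) ≤ t := by exact_mod_cast ht1
    nlinarith
  calc (6 : ℝ) * (n : ℝ) ^ (9 * (t + 1))
      ≤ 2 ^ (3 * Real.sqrt (n * l)) * 2 ^ (36 * Real.sqrt (n * l)) := by gcongr
    _ = 2 ^ (39 * Real.sqrt (n * l)) := by
        rw [← Real.rpow_add (by norm_num)]
        congr 1
        ring

/-- **Main theorem.** Let `n ≥ 2`. Every two-party function `f : X → Y → Bool` on finite sets with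
`min(|X|, |Y|) ≤ 2 ^ n` has a ZAM protocol, and `ZAM(f) ≤ 2 ^ (39 √(n log₂ n))`. -/
theorem main (n : ℕ) (hn : 2 ≤ n) (X Y : Type) [Finite X] [Finite Y]
    (hXY : min (Nat.card X) (Nat.card Y) ≤ 2 ^ n) (f : X → Y → Bool) :
    (∃ P : AMProtocol X Y, P.IsZAM f) ∧
      (ZAM f : ℝ) ≤ 2 ^ (39 * Real.sqrt (n * Real.logb 2 n)) := by
  have key : ∃ P : AMProtocol X Y, P.IsZAM f ∧
      P.cost ≤ 6 * n ^ (9 * (Nat.sqrt (n / Nat.log 2 n + 1) + 1)) := by
    rcases min_le_iff.1 hXY with h | h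
    · exact zam_nat n hn h f
    · obtain ⟨P, hP, hc⟩ := zam_nat n hn h (fun y x => f x y)
      exact ⟨P.swap, P.swap_isZAM f hP, hc⟩
  obtain ⟨P, hP, hc⟩ := key
  refine ⟨⟨P, hP⟩, ?_⟩
  have h1 : ZAM f ≤ 6 * n ^ (9 * (Nat.sqrt (n / Nat.log 2 n + 1) + 1)) :=
    (Nat.sInf_le (show P.cost ∈ {k : ℕ | ∃ P : AMProtocol X Y, P.IsZAM f ∧ P.cost = k} from
      ⟨P, hP, rfl⟩)).trans hc
  exact (Nat.cast_le.2 h1).trans (estimate n hn)

end MP668cf7
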