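import Pool.Agent.Lib.MP_668cf7_lc.Defs

/-!
# ZAM protocols from maps

If `α x : M → R`, `β y : M → Q` are maps such that `(α x, β y) : M → R × Q` is bijective on
1-inputs and has small image on 0-inputs, then there is a ZAM protocol with `|M|` rectangles.
-/

namespace MP668cf7

open Finset

theorem of_maps {X Y M R Q : Type} [Fintype M] [Fintype R] [Fintype Q] [Nonempty R] [Nonempty Q]
    (f : X → Y → Bool) (α : X → M → R) (β : Y → M → Q)
    (h1 : ∀ x y, f x y = true → Function.Bijective (fun c => (α x c, β y c)))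
    (h0 : ∀ x y, f x y = false →
      2 * Nat.card (Set.range (fun c => (α x c, β y c))) ≤ Nat.card (R × Q)) :
    ∃ P : AMProtocol X Y, P.IsZAM f ∧ P.m = Fintype.card M := by
  classical
  let e : Fin (Fintype.card M) ≃ M := (Fintype.equivFin M).symm
  let P : AMProtocol X Y :=
    { R := R, Q := Q, finR := inferInstance, finQ := inferInstance
      nonR := inferInstance, nonQ := inferInstance
      m := Fintype.card M
      A := fun i => {z | α z.1 (e i) = z.2}
      B := fun i => {z | β z.1 (e i) = z.2} }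
  have hin : ∀ x y i c, P.InRect x y i c ↔ (α x (e i), β y (e i)) = c := by
    intro x y i c
    constructor
    · rintro ⟨h, h'⟩
      exact Prod.ext h h'
    · rintro rfl
      exact ⟨rfl, rfl⟩
  have hacc : ∀ x y c, P.Accepts x y c ↔ c ∈ Set.range (fun c => (α x c, β y c)) := by
    intro x y c
    constructor
    · rintro ⟨i, hi⟩
      exact ⟨e i, (hin x y i c).1 hi⟩
    · rintro ⟨c', hc'⟩
      exact ⟨e.symm c', (hin x y _ c).2 (by simpa using hc')⟩
  have hpos : (0 : ℝ) < (Nat.card (R × Q) : ℝ) := by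
    exact_mod_cast Nat.card_pos
  refine ⟨P, ⟨?_, ?_, ?_, ?_⟩, rfl⟩
  · intro x y hxy
    have : Nat.card {c : R × Q // P.Accepts x y c} = Nat.card (R × Q) := by
      apply Nat.card_congr
      refine ⟨fun c => c.1, fun c => ⟨c, (hacc x y c).2 ((h1 x y hxy).2 c)⟩, fun c => rfl,
        fun c => rfl⟩
    show (Nat.card {c : R × Q // P.Accepts x y c} : ℝ) / (Nat.card (R × Q) : ℝ) = 1
    rw [this]
    exact div_self hpos.ne'
  · intro x y hxy
    have : Nat.card {c : R × Q // P.Accepts x y c}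
        = Nat.card (Set.range (fun c => (α x c, β y c))) := by
      apply Nat.card_congr
      exact Equiv.subtypeEquivRight (fun c => hacc x y c)
    show (Nat.card {c : R × Q // P.Accepts x y c} : ℝ) / (Nat.card (R × Q) : ℝ) ≤ 1 / 2
    rw [this, div_le_div_iff₀ hpos (by norm_num)]
    have := h0 x y hxy
    have h' : (2 * Nat.card (Set.range (fun c => (α x c, β y c))) : ℝ) ≤ (Nat.card (R × Q) : ℝ) := by
      exact_mod_cast this
    linarith
  · intro x y hxy c i j hi hj
    have h := (hin x y i c).1 hi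
    have h' := (hin x y j c).1 hj
    exact e.injective ((h1 x y hxy).1 (h.trans h'.symm))
  · intro x y x' y' hxy hxy' i
    have key : ∀ x y, Nat.card {c : R × Q // P.InRect x y i c} = 1 := by
      intro x y
      rw [Nat.card_eq_one_iff_unique]
      refine ⟨⟨?_⟩, ⟨⟨_, (hin x y i _).2 rfl⟩⟩⟩
      rintro ⟨c, hc⟩ ⟨c', hc'⟩
      exact Subtype.ext (((hin x y i c).1 hc).symm.trans ((hin x y i c').1 hc'))
    show (Nat.card {c : R × Q // P.InRect x y i c} : ℝ) / (Nat.card (R × Q) : ℝ)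
      = (Nat.card {c : R × Q // P.InRect x' y' i c} : ℝ) / (Nat.card (R × Q) : ℝ)
    rw [key, key]

theorem of_maps_sq {X Y M R Q : Type} [Fintype M] [Fintype R] [Fintype Q] [Nonempty R]
    [Nonempty Q] (f : X → Y → Bool) (α : X → M → R) (β : Y → M → Q)
    (h1 : ∀ x y, f x y = true → Function.Bijective (fun c => (α x c, β y c)))
    (h0 : ∀ x y, f x y = false →
      3 * Nat.card (Set.range (fun c => (α x c, β y c))) ≤ 2 * Nat.card (R × Q)) :
    ∃ P : AMProtocol X Y, P.IsZAM f ∧ P.m = Fintype.card M * Fintype.card M := by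
  classical
  have key1 : ∀ x y, f x y = true → Function.Bijective (fun c : M × M =>
      (((α x c.1, α x c.2), (β y c.1, β y c.2)) : (R × R) × (Q × Q))) := by
    intro x y hxy
    obtain ⟨hi, hs⟩ := h1 x y hxy
    constructor
    · rintro ⟨a, b⟩ ⟨a', b'⟩ h
      simp only [Prod.mk.injEq] at h
      obtain ⟨⟨e1, e2⟩, ⟨e3, e4⟩⟩ := h
      exact Prod.ext (hi (Prod.ext e1 e3)) (hi (Prod.ext e2 e4))
    · rintro ⟨⟨r, r'⟩, ⟨q, q'⟩⟩
      obtain ⟨a, ha⟩ := hs (r, q)
      obtain ⟨b, hb⟩ := hs (r', q')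
      simp only [Prod.mk.injEq] at ha hb
      exact ⟨(a, b), by simp [ha, hb]⟩
  have key0 : ∀ x y, f x y = false → 2 * Nat.card (Set.range (fun c : M × M =>
      (((α x c.1, α x c.2), (β y c.1, β y c.2)) : (R × R) × (Q × Q))))
      ≤ Nat.card ((R × R) × (Q × Q)) := by
    intro x y hxy
    have h := h0 x y hxy
    set S : Set (R × Q) := Set.range (fun c => (α x c, β y c)) with hS
    have hle : Nat.card (Set.range (fun c : M × M =>
        (((α x c.1, α x c.2), (β y c.1, β y c.2)) : (R × R) × (Q × Q)))) ≤ Nat.card (S × S) := by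
      apply Nat.card_le_card_of_injective
        (f := fun z => (⟨(⟨(z.1.1.1, z.1.2.1), by
            obtain ⟨c, hc⟩ := z.2
            exact ⟨c.1, by rw [← hc]⟩⟩ : S), ⟨(z.1.1.2, z.1.2.2), by
            obtain ⟨c, hc⟩ := z.2
            exact ⟨c.2, by rw [← hc]⟩⟩⟩ : S × S))
      rintro ⟨⟨⟨a, b⟩, ⟨c, d⟩⟩, hz⟩ ⟨⟨⟨a', b'⟩, ⟨c', d'⟩⟩, hz'⟩ h
      simp only [Prod.mk.injEq, Subtype.mk.injEq] at h
      obtain ⟨⟨e1, e2⟩, ⟨e3, e4⟩⟩ := h
      subst e1 e2 e3 e4
      rfl
    rw [Nat.card_prod] at hle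
    rw [Nat.card_prod (R × R), Nat.card_prod R R, Nat.card_prod Q Q]
    rw [Nat.card_prod] at h
    set s := Nat.card S
    set r := Nat.card R
    set q := Nat.card Q
    have h2 : (3 * s) * (3 * s) ≤ (2 * (r * q)) * (2 * (r * q)) := Nat.mul_le_mul h h
    nlinarith [hle, h2, Nat.zero_le ((r * q) * (r * q))]
  obtain ⟨P, hP, hm⟩ := of_maps (M := M × M) (R := R × R) (Q := Q × Q) f
    (fun x c => (α x c.1, α x c.2)) (fun y c => (β y c.1, β y c.2)) key1 key0
  exact ⟨P, hP, by rw [hm, Fintype.card_prod]⟩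

end MP668cf7
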